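import Pool.Agent.Lib.MP_a1e814_lc.SeFin

open Pool.Agent.Lib.MP_a1e814_lc N68a2faeb

namespace Pool.Agent.Results.MP_a1e814_lc.LogLogSubexp

/-- For every language `L` in `NP` and every `d` there is `δ > 0` such that a polynomial time
approximation of weighted Sparsest Cut within the factor `exp ((log log n) ^ δ)` decides `L` in
deterministic time `2 ^ O(n ^ (1 / d))`. -/
theorem result (L : DecisionProblem) (hL : L ∈ NP) (d : ℕ) (hd : 0 < d) :
    ∃ δ : ℝ, 0 < δ ∧ ∀ (n₀ : ℕ) (alg : Inst → List ℕ), IsPolyTime alg →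
      ApproximatesFrom n₀ (fun n => Real.exp (Real.log (Real.log n) ^ δ)) alg →
      L ∈ PadTime fun n => 2 ^ ⌊(n : ℝ) ^ (1 / d : ℝ)⌋₊ :=
  Se.final hL hd

end Pool.Agent.Results.MP_a1e814_lc.LogLogSubexp
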