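import Pool.Agent.Lib.MP_a1e814_lc.Sh.Inst
import Pool.Agent.Lib.MP_a1e814_lc.Diag

open Pool.Agent.Lib.MP_a1e814_lc N68a2faeb Filter

namespace Pool.Agent.Results.MP_a1e814_lc.SuperConstant

/-- It is NP-hard to approximate weighted Sparsest Cut within some unbounded factor `ρ n`, in
particular within every constant factor. -/
theorem result : ∃ ρ : ℕ → ℝ, Monotone ρ ∧ Tendsto ρ atTop atTop ∧
    ∀ (n₀ : ℕ) (alg : Inst → List ℕ), IsPolyTime alg → ApproximatesFrom n₀ ρ alg → P = NP :=
  Dg.diag Sh.every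

end Pool.Agent.Results.MP_a1e814_lc.SuperConstant
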